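import Pool.Agent.Q43.Dig.Asym

set_option autoImplicit false

namespace Pool.Agent.Results.MP_28b5ac_nt.ManyPrimeFactors

open Finset Filter Pool.Agent.Q43.Dig

/-- The number of distinct primes dividing `|m|`; the value at `m = 0` is `0`. -/
def omega (m : ℤ) : ℕ := m.natAbs.primeFactors.card

/-- The `(K, ε, x)`-good integers. -/
def Good (K ε x : ℝ) (n : ℤ) : Prop :=
  ∀ (a j k : ℤ) (h : ℕ), 2 ≤ a → (a : ℝ) ≤ K → 1 ≤ j → (j : ℝ) ≤ K → 1 ≤ k → (k : ℝ) ≤ K →
    (h : ℝ) ≤ K * Real.log x →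
    (Real.log (Real.log x)) ^ (1 - ε) ≤ (omega (n * j + a ^ h * k) : ℝ) ∧
    (Real.log (Real.log x)) ^ (1 - ε) ≤ (omega (n * j - a ^ h * k) : ℝ)

theorem ev_exp (c C : ℝ) (hc : 0 < c) : ∀ᶠ u : ℝ in atTop, C ≤ Real.exp (c * u) :=
  (Real.tendsto_exp_atTop.comp (tendsto_id.const_mul_atTop hc)).eventually_ge_atTop C

theorem ev_exp_lin (c C : ℝ) (hc : 0 < c) (hC : 0 < C) :
    ∀ᶠ u : ℝ in atTop, C * u ≤ Real.exp (c * u) := by
  have h1 := isLittleO_pow_exp_pos_mul_atTop (k := 1) hc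
  have h2 := h1.bound (show (0 : ℝ) < 1 / C by positivity)
  filter_upwards [h2, eventually_gt_atTop 0] with u hu hu0
  simp only [pow_one, Real.norm_eq_abs, Real.abs_exp, abs_of_pos hu0] at hu
  have h3 := mul_le_mul_of_nonneg_left hu hC.le
  calc C * u ≤ C * (1 / C * Real.exp (c * u)) := h3
    _ = Real.exp (c * u) := by field_simp

theorem fin_ineq (K ε ℓ : ℝ) (N : ℕ) (hK : 2 ≤ K) (h9 : 2 * K ≤ Real.exp (ε / 2 * ℓ))
    (h10 : (1 + N * (K + 1)) * ℓ ≤ Real.exp ((1 - ε) * ℓ)) (hℓ1 : 1 ≤ ℓ) :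
    Real.exp ((1 - ε) * ℓ) ≤ Real.exp ((1 - ε / 2) * ℓ) / K - 1 - N * (K * ℓ + 1) := by
  have h12 : Real.exp ((1 - ε / 2) * ℓ) = Real.exp ((1 - ε) * ℓ) * Real.exp (ε / 2 * ℓ) := by
    rw [← Real.exp_add]; congr 1; ring
  have h13 : 2 * Real.exp ((1 - ε) * ℓ) ≤ Real.exp ((1 - ε / 2) * ℓ) / K := by
    rw [le_div_iff₀ (by linarith), h12]
    have h := mul_le_mul_of_nonneg_left h9 (Real.exp_pos ((1 - ε) * ℓ)).le
    linarith
  have h14 : 1 + (N : ℝ) * (K * ℓ + 1) ≤ (1 + N * (K + 1)) * ℓ := by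
    have h15 : (0 : ℝ) ≤ N := Nat.cast_nonneg _
    have h16 := mul_nonneg h15 (sub_nonneg.2 hℓ1)
    linarith
  linarith

/-- All the asymptotic inequalities. -/
theorem ev_params (K ε : ℝ) (hK : 2 ≤ K) (hε : 0 < ε) (hε1 : ε < 1) (N K' : ℕ) (hK' : 2 ≤ K') :
    ∀ᶠ ℓ : ℝ in atTop, ∃ Y X : ℕ, K' ≤ Y ∧
      (N : ℝ) * (2 ^ ⌈(Real.log ℓ) ^ (1 - ε)⌉₊ * ((⌊K * ℓ⌋₊ : ℕ) + 1) *
        Real.exp (1 / 2 - (1 / 8) * Real.log Y)) * (⌈(Real.log ℓ) ^ (1 - ε)⌉₊ : ℕ) +
        (Y : ℝ) ^ (N + 1) + K' ≤ Nat.primeCounting X ∧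
      ((K' ^ (2 * N * (Y ^ (N + 1)) ^ 2) * 4 ^ X : ℕ) : ℝ) ≤ Real.exp ((ε / 2) * ℓ) ∧
      Real.exp ((1 - ε) * ℓ) ≤ Real.exp ((1 - ε / 2) * ℓ) / K - 1 - N * (K * ℓ + 1) := by
  set α : ℝ := 1 / (3 * (N + 1)) with hα
  have hα0 : 0 < α := by positivity
  have hα3 : α ≤ 1 / 3 := by
    rw [hα]
    apply one_div_le_one_div_of_le (by norm_num)
    have : (0 : ℝ) ≤ N := by positivity
    linarith
  set δ : ℝ := α / 32 with hδ
  have hδ0 : 0 < δ := by positivity
  have hδ1 : δ ≤ 1 / 96 := by rw [hδ]; linarith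
  have hK'0 : (0 : ℝ) ≤ K' := by positivity
  have hlogK' : 0 ≤ Real.log K' := Real.log_nonneg (by exact_mod_cast (by omega : 1 ≤ K'))
  have hl4 : 0 < Real.log 4 := Real.log_pos (by norm_num)
  set c : ℝ := δ / Real.log 4 with hc
  have hc0 : 0 < c := by positivity
  -- facts in `u = log ℓ`
  have F1 := ev_exp α (K' + 2) hα0
  have F2 : ∀ᶠ u : ℝ in atTop, u ^ (-ε) ≤ c / 2 :=
    (tendsto_rpow_neg_atTop hε).eventually_le_const (by positivity)
  have F3 := ev_lin (c / 2) 1 (by positivity)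
  have F4 := ev_exp δ (3 * (2 * N * K * Real.exp 1)) hδ0
  have F5 := ev_exp (2 / 3 - 2 * δ) 3 (by linarith)
  have F6 := ev_exp (1 - 2 * δ) (3 * K') (by linarith)
  have F7 := ev_exp (1 / 3) (4 / ε * (2 * N * Real.log K')) (by norm_num)
  have F8 := ev_exp δ (4 / ε * Real.log 4) hδ0
  have F11 := ev_prime δ hδ0 (by linarith)
  have FU : ∀ᶠ u : ℝ in atTop, 0 < u ∧ (K' : ℝ) + 2 ≤ Real.exp (α * u) ∧ u ^ (-ε) ≤ c / 2 ∧
      1 ≤ c / 2 * u ∧ 3 * (2 * N * K * Real.exp 1) ≤ Real.exp (δ * u) ∧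
      3 ≤ Real.exp ((2 / 3 - 2 * δ) * u) ∧ 3 * (K' : ℝ) ≤ Real.exp ((1 - 2 * δ) * u) ∧
      4 / ε * (2 * N * Real.log K') ≤ Real.exp (1 / 3 * u) ∧
      4 / ε * Real.log 4 ≤ Real.exp (δ * u) ∧
      Real.exp ((1 - 2 * δ) * u) ≤ Nat.primeCounting ⌊Real.exp ((1 - δ) * u)⌋₊ := by
    filter_upwards [eventually_gt_atTop (0 : ℝ), F1, F2, F3, F4, F5, F6, F7, F8, F11] with
      u h0 h1 h2 h3 h4 h5 h6 h7 h8 h11
    exact ⟨h0, h1, h2, h3, h4, h5, h6, h7, h8, h11⟩
  have FL := Real.tendsto_log_atTop.eventually FU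
  have F9 := ev_exp (ε / 2) (2 * K) (by positivity)
  have F10 := ev_exp_lin (1 - ε) (1 + N * (K + 1)) (by linarith) (by positivity)
  filter_upwards [FL, F9, F10, eventually_ge_atTop (1 : ℝ)] with ℓ hFL h9 h10 hℓ1
  obtain ⟨h0, h1, h2, h3, h4, h5, h6, h7, h8, h11⟩ := hFL
  set u := Real.log ℓ with hu
  have hℓ0 : 0 < ℓ := by linarith
  have hexpu : Real.exp u = ℓ := Real.exp_log hℓ0
  set Y := ⌊Real.exp (α * u)⌋₊ with hY
  set X := ⌊Real.exp ((1 - δ) * u)⌋₊ with hX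
  set L := ⌈u ^ (1 - ε)⌉₊ with hL
  set H := ⌊K * ℓ⌋₊ with hH
  have hYle : (Y : ℝ) ≤ Real.exp (α * u) := Nat.floor_le (Real.exp_pos _).le
  have hYge : Real.exp (α * u) - 1 < Y := Nat.sub_one_lt_floor _
  have hK'Y : K' ≤ Y := by
    have : (K' : ℝ) ≤ Y := by linarith
    exact_mod_cast this
  refine ⟨Y, X, hK'Y, ?_, ?_, ?_⟩
  · -- the counting inequality
    have hLle : (L : ℝ) ≤ c * u := by
      have hu1 : u ^ (1 - ε) = u * u ^ (-ε) := by
        rw [sub_eq_add_neg, Real.rpow_add h0, Real.rpow_one]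
      have h12 : (L : ℝ) < u ^ (1 - ε) + 1 := Nat.ceil_lt_add_one (Real.rpow_nonneg h0.le _)
      have h13 : u ^ (1 - ε) ≤ u * (c / 2) := by
        rw [hu1]; exact mul_le_mul_of_nonneg_left h2 h0.le
      linarith
    have h2L : (2 : ℝ) ^ L * L ≤ Real.exp (δ * u) := by
      have h12 : (L : ℝ) ≤ 2 ^ L := by exact_mod_cast Nat.lt_two_pow_self.le
      calc (2 : ℝ) ^ L * L ≤ 2 ^ L * 2 ^ L := mul_le_mul_of_nonneg_left h12 (by positivity)
        _ = Real.exp (L * Real.log 4) := by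
            rw [← mul_pow, show (2 : ℝ) * 2 = 4 by norm_num, mul_comm, Real.exp_mul,
              Real.exp_log (by norm_num), Real.rpow_natCast]
        _ ≤ Real.exp (δ * u) := by
            apply Real.exp_le_exp.2
            have h13 := mul_le_mul_of_nonneg_right hLle hl4.le
            have h14 : c * u * Real.log 4 = δ * u := by
              rw [hc]; field_simp
            linarith
    have hH1 : (H : ℝ) + 1 ≤ 2 * K * Real.exp u := by
      have h12 : (H : ℝ) ≤ K * ℓ := Nat.floor_le (by positivity)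
      rw [hexpu]
      nlinarith
    have hYe : Real.exp (1 / 2 - (1 / 8) * Real.log Y) ≤ Real.exp 1 * Real.exp (-(4 * δ) * u) := by
      rw [← Real.exp_add]
      apply Real.exp_le_exp.2
      have h12 : Real.exp (α * u) / 2 ≤ Y := by
        have : (2 : ℝ) ≤ Real.exp (α * u) := by linarith
        linarith
      have h13 : Real.log (Real.exp (α * u) / 2) ≤ Real.log Y :=
        Real.log_le_log (by positivity) h12
      rw [Real.log_div (Real.exp_pos _).ne' (by norm_num), Real.log_exp] at h13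
      have h14 : Real.log 2 ≤ 1 := by have := Real.log_two_lt_d9; linarith
      have h15 : 4 * δ = α / 8 := by rw [hδ]; ring
      rw [h15]
      linarith
    have hmain : (N : ℝ) * (2 ^ L * ((H : ℝ) + 1) * Real.exp (1 / 2 - (1 / 8) * Real.log Y)) * L ≤
        (1 / 3) * Real.exp ((1 - 2 * δ) * u) := by
      calc (N : ℝ) * (2 ^ L * ((H : ℝ) + 1) * Real.exp (1 / 2 - (1 / 8) * Real.log Y)) * L
          = N * ((2 ^ L * L) * (((H : ℝ) + 1) * Real.exp (1 / 2 - (1 / 8) * Real.log Y))) := by ring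
        _ ≤ N * (Real.exp (δ * u) * ((2 * K * Real.exp u) *
            (Real.exp 1 * Real.exp (-(4 * δ) * u)))) := by
            apply mul_le_mul_of_nonneg_left _ (by positivity)
            apply mul_le_mul h2L _ (by positivity) (by positivity)
            exact mul_le_mul hH1 hYe (by positivity) (by positivity)
        _ = (2 * N * K * Real.exp 1) * (Real.exp (δ * u) * Real.exp u * Real.exp (-(4 * δ) * u)) := by
            ring
        _ = (2 * N * K * Real.exp 1) * Real.exp ((1 - 3 * δ) * u) := by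
            rw [← Real.exp_add, ← Real.exp_add]; congr 2; ring
        _ ≤ (1 / 3 * Real.exp (δ * u)) * Real.exp ((1 - 3 * δ) * u) := by
            apply mul_le_mul_of_nonneg_right _ (by positivity)
            linarith
        _ = (1 / 3) * Real.exp ((1 - 2 * δ) * u) := by
            rw [mul_assoc, ← Real.exp_add]; congr 2; ring
    have hYN : (Y : ℝ) ^ (N + 1) ≤ (1 / 3) * Real.exp ((1 - 2 * δ) * u) := by
      calc (Y : ℝ) ^ (N + 1) ≤ (Real.exp (α * u)) ^ (N + 1) :=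
            pow_le_pow_left₀ (by positivity) hYle _
        _ = Real.exp (1 / 3 * u) := by
            rw [← Real.exp_nat_mul]
            congr 1
            rw [hα]; push_cast
            have : (N : ℝ) + 1 ≠ 0 := by positivity
            field_simp
        _ ≤ (1 / 3) * Real.exp ((2 / 3 - 2 * δ) * u) * Real.exp (1 / 3 * u) := by
            have := Real.exp_pos (1 / 3 * u)
            nlinarith
        _ = (1 / 3) * Real.exp ((1 - 2 * δ) * u) := by
            rw [mul_assoc, ← Real.exp_add]; congr 2; ring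
    linarith
  · -- the size of the modulus
    push_cast
    have h12 : ((K' : ℝ)) ^ (2 * N * (Y ^ (N + 1)) ^ 2) =
        Real.exp ((2 * N * ((Y : ℝ) ^ (N + 1)) ^ 2) * Real.log K') := by
      rw [mul_comm _ (Real.log K'), Real.exp_mul, Real.exp_log (by positivity)]
      rw [← Real.rpow_natCast]
      push_cast
      rfl
    have h13 : (4 : ℝ) ^ X = Real.exp (X * Real.log 4) := by
      rw [mul_comm _ (Real.log 4), Real.exp_mul, Real.exp_log (by norm_num), Real.rpow_natCast]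
    rw [h12, h13, ← Real.exp_add]
    apply Real.exp_le_exp.2
    have hYN : ((Y : ℝ) ^ (N + 1)) ^ 2 ≤ Real.exp (2 / 3 * u) := by
      calc ((Y : ℝ) ^ (N + 1)) ^ 2 ≤ ((Real.exp (α * u)) ^ (N + 1)) ^ 2 := by
            apply pow_le_pow_left₀ (by positivity)
            exact pow_le_pow_left₀ (by positivity) hYle _
        _ = Real.exp (2 / 3 * u) := by
            rw [← pow_mul, ← Real.exp_nat_mul]
            congr 1
            rw [hα]; push_cast
            have : (N : ℝ) + 1 ≠ 0 := by positivity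
            field_simp
    have hXle : (X : ℝ) ≤ Real.exp ((1 - δ) * u) := Nat.floor_le (Real.exp_pos _).le
    have h14 : 2 * N * ((Y : ℝ) ^ (N + 1)) ^ 2 * Real.log K' ≤ ε / 4 * ℓ := by
      calc 2 * N * ((Y : ℝ) ^ (N + 1)) ^ 2 * Real.log K'
          = (2 * N * Real.log K') * ((Y : ℝ) ^ (N + 1)) ^ 2 := by ring
        _ ≤ (2 * N * Real.log K') * Real.exp (2 / 3 * u) :=
            mul_le_mul_of_nonneg_left hYN (by positivity)
        _ ≤ (ε / 4 * Real.exp (1 / 3 * u)) * Real.exp (2 / 3 * u) := by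
            apply mul_le_mul_of_nonneg_right _ (by positivity)
            have := mul_le_mul_of_nonneg_left h7 (show 0 ≤ ε / 4 by positivity)
            calc 2 * N * Real.log K' = ε / 4 * (4 / ε * (2 * N * Real.log K')) := by
                  field_simp
              _ ≤ _ := this
        _ = ε / 4 * ℓ := by
            rw [mul_assoc, ← Real.exp_add, ← hexpu]; congr 2; ring
    have h15 : (X : ℝ) * Real.log 4 ≤ ε / 4 * ℓ := by
      calc (X : ℝ) * Real.log 4 ≤ Real.exp ((1 - δ) * u) * Real.log 4 :=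
            mul_le_mul_of_nonneg_right hXle hl4.le
        _ ≤ Real.exp ((1 - δ) * u) * (ε / 4 * Real.exp (δ * u)) := by
            apply mul_le_mul_of_nonneg_left _ (by positivity)
            have := mul_le_mul_of_nonneg_left h8 (show 0 ≤ ε / 4 by positivity)
            calc Real.log 4 = ε / 4 * (4 / ε * Real.log 4) := by field_simp
              _ ≤ _ := this
        _ = ε / 4 * (Real.exp ((1 - δ) * u) * Real.exp (δ * u)) := by ring
        _ = ε / 4 * ℓ := by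
            rw [← Real.exp_add, ← hexpu]; congr 2; ring
    linarith
  · exact fin_ineq K ε ℓ N hK h9 h10 hℓ1

/-- The set of integers `n` for which some value `n j + a^h k` vanishes is small. -/
noncomputable def zeros (K' H : ℕ) : Finset ℤ :=
  (combos K' ×ˢ range (H + 1)).image (fun b => (-((b.1.1 : ℤ) ^ b.2 * b.1.2.2)) / (b.1.2.1 : ℤ))

theorem card_zeros (K' H : ℕ) : ((zeros K' H).card : ℝ) ≤ (combos K').card * ((H : ℝ) + 1) := by
  have : (zeros K' H).card ≤ (combos K').card * (H + 1) := by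
    unfold zeros
    refine card_image_le.trans ?_
    rw [card_product, card_range]
  exact_mod_cast this

theorem mem_zeros {K' H : ℕ} {n : ℤ} {c : ℕ × ℕ × ℤ} (hc : c ∈ combos K') {h : ℕ} (hh : h ≤ H)
    (h0 : n * c.2.1 + (c.1 : ℤ) ^ h * c.2.2 = 0) : n ∈ zeros K' H := by
  unfold zeros
  rw [mem_image]
  refine ⟨(c, h), ?_, ?_⟩
  · rw [mem_product]; exact ⟨hc, mem_range.2 (by omega)⟩
  · have hj := (mem_combos.1 hc).2.1.1
    have hj0 : (c.2.1 : ℤ) ≠ 0 := by
      have : 0 < c.2.1 := by omega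
      exact_mod_cast this.ne'
    simp only
    apply Int.ediv_eq_of_eq_mul_left hj0
    linarith

/-- **Full answer to Q1.** -/
theorem result : ∀ K : ℝ, 2 ≤ K → ∀ ε : ℝ, 0 < ε → ε < 1 → ∃ x₀ : ℝ, ∀ x : ℝ, x₀ ≤ x →
    x ^ (1 - ε) ≤
      (({n : ℤ | x ≤ (n : ℝ) ∧ (n : ℝ) ≤ (1 + K⁻¹) * x ∧ Good K ε x n}.ncard : ℕ) : ℝ) := by
  intro K hK ε hε hε1
  have hK0 : 0 < K := by linarith
  have hK'2 : 2 ≤ ⌊K⌋₊ := Nat.le_floor (by exact_mod_cast hK)
  have hev := Real.tendsto_log_atTop.eventually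
    (ev_params K ε hK hε hε1 (combos ⌊K⌋₊).card ⌊K⌋₊ hK'2)
  have hev2 := hev.and ((eventually_ge_atTop (1 : ℝ)).and
    (Real.tendsto_log_atTop.eventually (eventually_ge_atTop (1 : ℝ))))
  obtain ⟨x₀, hx₀⟩ := eventually_atTop.1 hev2
  refine ⟨x₀, fun x hx => ?_⟩
  obtain ⟨⟨Y, X, hY, hcount, hQle, hfin⟩, hx1, hlx1⟩ := hx₀ x hx
  have hx0 : 0 < x := by linarith
  set ℓ := Real.log x with hℓ
  set K' := ⌊K⌋₊ with hK'
  set H := ⌊K * ℓ⌋₊ with hH
  set L := ⌈(Real.log ℓ) ^ (1 - ε)⌉₊ with hL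
  have hcount' : (combos K').card * (2 ^ L * ((H : ℝ) + 1) *
      Real.exp (1 / 2 - (1 / 8) * Real.log Y)) * L +
      (Y : ℝ) ^ ((combos K').card + 1) + K' ≤ Nat.primeCounting X := hcount
  obtain ⟨n0, Q, hQ0, hQ1, hQ2⟩ := assemble K' H L Y X hK'2 hY hcount'
  have hQe : (Q : ℝ) ≤ Real.exp ((ε / 2) * ℓ) := le_trans (by exact_mod_cast hQ1) hQle
  have hfinite : {n : ℤ | x ≤ (n : ℝ) ∧ (n : ℝ) ≤ (1 + K⁻¹) * x ∧ Good K ε x n}.Finite := by
    apply (Set.finite_Icc ⌈x⌉ ⌊(1 + K⁻¹) * x⌋).subset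
    rintro n ⟨h1, h2, _⟩
    exact ⟨Int.ceil_le.2 h1, Int.le_floor.2 h2⟩
  have hmain := count_ge K x hK0 n0 Q hQ0 (zeros K' H)
    {n : ℤ | x ≤ (n : ℝ) ∧ (n : ℝ) ≤ (1 + K⁻¹) * x ∧ Good K ε x n} (by
      intro n h1 h2 h3 h4
      refine ⟨h1, h2, ?_⟩
      have key : ∀ (a j k : ℤ) (h : ℕ), 2 ≤ a → (a : ℝ) ≤ K → 1 ≤ j → (j : ℝ) ≤ K →
          -(K' : ℤ) ≤ k → k ≤ K' → (h : ℝ) ≤ K * Real.log x →
          (Real.log (Real.log x)) ^ (1 - ε) ≤ (omega (n * j + a ^ h * k) : ℝ) := by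
        intro a j k h ha haK hj hjK hk hkK hh
        obtain ⟨a', rfl⟩ := Int.eq_ofNat_of_zero_le (by omega : 0 ≤ a)
        obtain ⟨j', rfl⟩ := Int.eq_ofNat_of_zero_le (by omega : 0 ≤ j)
        have haK' : a' ≤ K' := Nat.le_floor (by exact_mod_cast haK)
        have hjK' : j' ≤ K' := Nat.le_floor (by exact_mod_cast hjK)
        have hc : ((a', j', k) : ℕ × ℕ × ℤ) ∈ combos K' := by
          rw [mem_combos]
          exact ⟨⟨by exact_mod_cast ha, haK'⟩, ⟨by exact_mod_cast hj, hjK'⟩, hk, hkK⟩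
        have hh' : h ≤ H := Nat.le_floor hh
        have hne : n * (j' : ℤ) + (a' : ℤ) ^ h * k ≠ 0 := fun h0 =>
          h4 (mem_zeros (c := (a', j', k)) hc hh' h0)
        have h5 := hQ2 n h3 (a', j', k) hc h hh' hne
        calc (Real.log (Real.log x)) ^ (1 - ε) ≤ (L : ℝ) := Nat.le_ceil _
          _ ≤ _ := by
            unfold omega
            exact_mod_cast h5
      intro a j k h ha haK hj hjK hk hkK hh
      obtain ⟨k', rfl⟩ := Int.eq_ofNat_of_zero_le (by omega : 0 ≤ k)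
      have hkK' : k' ≤ K' := Nat.le_floor (by exact_mod_cast hkK)
      have hkK'' : (k' : ℤ) ≤ K' := by exact_mod_cast hkK'
      refine ⟨key a j k' h ha haK hj hjK (by omega) hkK'' hh, ?_⟩
      have h6 := key a j (-k') h ha haK hj hjK (by omega) (by omega) hh
      have h7 : n * j - a ^ h * (k' : ℤ) = n * j + a ^ h * (-(k' : ℤ)) := by ring
      rw [h7]
      exact h6) hfinite
  refine le_trans ?_ hmain
  have hxe : x = Real.exp ℓ := (Real.exp_log hx0).symm
  have hx1ε : x ^ (1 - ε) = Real.exp ((1 - ε) * ℓ) := by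
    rw [Real.rpow_def_of_pos hx0, mul_comm]
  rw [hx1ε]
  refine hfin.trans ?_
  have hQ0' : (0 : ℝ) < Q := by exact_mod_cast hQ0
  have h8 : Real.exp ((1 - ε / 2) * ℓ) / K ≤ x / (K * Q) := by
    rw [div_le_div_iff₀ hK0 (by positivity)]
    have h9 : Real.exp ((1 - ε / 2) * ℓ) * Q ≤ x := by
      calc Real.exp ((1 - ε / 2) * ℓ) * Q ≤
          Real.exp ((1 - ε / 2) * ℓ) * Real.exp ((ε / 2) * ℓ) :=
            mul_le_mul_of_nonneg_left hQe (Real.exp_pos _).le
        _ = Real.exp ℓ := by rw [← Real.exp_add]; congr 1; ring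
        _ = x := hxe.symm
    calc Real.exp ((1 - ε / 2) * ℓ) * (K * Q) = K * (Real.exp ((1 - ε / 2) * ℓ) * Q) := by ring
      _ ≤ K * x := mul_le_mul_of_nonneg_left h9 hK0.le
      _ = x * K := by ring
  have h10 : ((zeros K' H).card : ℝ) ≤ (combos K').card * (K * ℓ + 1) := by
    refine (card_zeros K' H).trans ?_
    apply mul_le_mul_of_nonneg_left _ (Nat.cast_nonneg _)
    have : (H : ℝ) ≤ K * ℓ := Nat.floor_le (mul_nonneg hK0.le (by linarith))
    linarith
  linarith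

end Pool.Agent.Results.MP_28b5ac_nt.ManyPrimeFactors
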